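import Pool.Agent.Helper38.ZS.Stmts
import Pool.Agent.Helper3.NFR.Stmts

/-!
# The Beck-Fiala bound `C √t`: definitions for the last step

Built on zonotope signing (`Helper38.ZS`) and on the Cauchy potential (`Helper3.NFR`). New: cheap
coordinates (rows with few live elements), rounding of dual vectors, and the row profile
`prf a x k i S = x * ∑_{v ∈ S, i ≤ k v} 800 ^ (k v - i)`.
-/

namespace Pool.Agent.Helper53.BFZ

open Finset
open scoped Classical

noncomputable section

/-- the exponent of cheap coordinates -/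
def ex : ℝ := 1 / 200

/-- truncated power: `x ^ 1.04` for small `x`, `x ^ 0.96` for large `x` -/
def kp (x : ℝ) : ℝ := min (x ^ (24 / 25 : ℝ)) (x ^ (26 / 25 : ℝ))

/-- truncated power used for scales: `x ^ 1.1` for small `x`, `x ^ 0.9` for large `x` -/
def kq (x : ℝ) : ℝ := min (x ^ (9 / 10 : ℝ)) (x ^ (11 / 10 : ℝ))

variable {ι : Type} [Fintype ι]

/-- `X` is a set of cheap coordinates of `P`: for `j ∈ X` the range of `P` contains a vector `B j`
with `B j j = 1`, zero on the rest of `X` and small square norm outside `X` -/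
structure Cheap (P : ι → ι → ℝ) (X : Finset ι) (θ0 : ℝ) (θ : ι → ℝ) (B : ι → ι → ℝ) : Prop where
  pos : ∀ j ∈ X, 0 < θ j
  le : ∀ j ∈ X, θ j ≤ θ0
  rng : ∀ j ∈ X, Pool.Agent.Helper38.ZS.ap P (B j) = B j
  one : ∀ j ∈ X, B j j = 1
  zero : ∀ j ∈ X, ∀ i ∈ X, i ≠ j → B j i = 0
  sq : ∀ j ∈ X, ∑ i ∈ Xᶜ, B j i ^ 2 ≤ θ j

variable {V R : Type} [Fintype V] [Fintype R]

omit [Fintype R] in
/-- number of elements of `W` in the row `S` -/
def cnt (a : V → Finset R) (W : Finset V) (S : R) : ℕ := #(W.filter (fun v => S ∈ a v))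

/-- tolerance of a row with inverse stiffness `l` and `n` live elements -/
def tol (l : ℝ) (n : ℕ) : ℝ := l * min 1 (((n : ℝ) / l ^ 2) ^ ex)

omit [Fintype R] in
/-- profile of a row at level `i` -/
def prf (a : V → Finset R) (x : ℝ) (k : V → ℕ) (i : ℕ) (S : R) : ℝ :=
  x * ∑ v ∈ univ.filter (fun v => S ∈ a v ∧ i ≤ k v), (800 : ℝ) ^ (k v - i)

omit [Fintype R] in
/-- inverse stiffness of a row at level `i` -/
def lam2 (a : V → Finset R) (l0 x : ℝ) (k : V → ℕ) (i : ℕ) (S : R) : ℝ :=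
  l0 / (1 + prf a x k i S)

end

end Pool.Agent.Helper53.BFZ
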