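import Pool.Agent.Helper53.BFZ.Defs

/-!
# The Beck-Fiala bound `C √t`: statements of the modules
-/

namespace Pool.Agent.Helper53.BFZ

open Finset
open Pool.Agent.Helper38.ZS (IsPr ap rs nu l1 II DD Link TT)
open Pool.Agent.Helper3.NFR (ph ps dn fn wt ZZ Happy sw EE c0)
open scoped Classical

noncomputable section

/-- Z0. derandomised two point rounding: `G j ∈ {0, ± A j}` has mean `g j` -/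
def ST_RND : Prop :=
  ∀ (J W : Type) [Fintype W] (Y : Finset J) (B : J → W → ℝ) (g A h : J → ℝ),
    (∀ j ∈ Y, 0 < A j) → (∀ j ∈ Y, |g j| ≤ A j) → (∀ j ∈ Y, 0 ≤ h j) →
    ∃ G : J → ℝ, (∀ j ∈ Y, G j = 0 ∨ |G j| = A j) ∧
      ∑ i, (∑ j ∈ Y, (G j - g j) * B j i) ^ 2 + ∑ j ∈ Y, (if G j = 0 then 0 else h j) ≤
        ∑ j ∈ Y, |g j| / A j * (A j ^ 2 * ∑ i, B j i ^ 2 + h j)

/-- Z1. level selection with weights -/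
def ST_LEVELW : Prop :=
  ∃ C0 : ℝ, 1 ≤ C0 ∧ ∀ (ι : Type) [Fintype ι] (V : Finset ι) (f ξ w : ι → ℝ) (β : ℝ),
    0 < β → (∀ i, 0 ≤ w i) → (∀ i ∈ V, w i = β) → (∀ i ∈ V, |ξ i| ≤ 1) →
    ∑ i, w i * |f i| < ∑ i ∈ V, ξ i * f i →
    ∃ s : ℝ, 0 < s ∧ 0 < ∑ i ∈ V, |TT (s * f i)| ∧
      β / 2 * ∑ i ∈ V, |TT (s * f i)| < ∑ i ∈ V, ξ i * TT (s * f i) ∧
      ∀ h : ℤ, (2 : ℝ) ^ h * ∑ i ∈ univ.filter (fun i => (2 : ℝ) ^ (h + 1) ≤ |s * f i|), w i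
        ≤ C0 * (2 : ℝ) ^ (|(h : ℝ)| / 40) * ∑ i ∈ V, |TT (s * f i)|

/-- Z2. weighted sums over a profile -/
def ST_PROFW : Prop :=
  ∃ C0 : ℝ, 1 ≤ C0 ∧ ∀ (ι : Type) [Fintype ι] (w g : ι → ℝ) (A : ℝ), 0 ≤ A → (∀ i, 0 ≤ w i) →
    (∀ h : ℤ, (2 : ℝ) ^ h * ∑ i ∈ univ.filter (fun i => (2 : ℝ) ^ (h + 1) ≤ |g i|), w i
      ≤ A * (2 : ℝ) ^ (|(h : ℝ)| / 40)) →
    ∑ i, w i * kp |g i| ≤ C0 * A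

/-- Z3. quantisation of the cheap coordinates -/
def ST_QUANT : Prop :=
  ∀ δ γ C : ℝ, 0 < δ → 0 < γ → 0 < C → ∃ θ0 : ℝ, 0 < θ0 ∧ θ0 ≤ 1 ∧
    ∀ (ι : Type) [Fintype ι] (P : ι → ι → ℝ) (X : Finset ι) (θ g : ι → ℝ) (B : ι → ι → ℝ) (m : ℝ),
      Cheap P X θ0 θ B → ap P g = g → 0 ≤ m → ∑ j ∈ X, θ j ^ ex * kp |g j| ≤ C * m →
      ∃ g' : ι → ℝ, ap P g' = g' ∧ ∑ i ∈ Xᶜ, (g' i - g i) ^ 2 ≤ δ * m ∧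
        nu g' (X.filter (fun j => γ ≤ |g' j|)) ≤ δ * m ∧
        ∑ j ∈ X.filter (fun j => |g' j| < γ), g' j ^ 2 ≤ δ * m

/-- Z4. from a vector with a good profile to a piece -/
def ST_CORE : Prop :=
  ∀ β B0 : ℝ, 0 < β → β ≤ 1 → 1 ≤ B0 → ∃ C1 : ℝ, 1 ≤ C1 ∧ ∀ ε : ℝ, 0 < ε → ε ≤ 1 →
    ∃ e0 : ℝ, 0 < e0 ∧ ∀ γ c1 : ℝ, 0 < γ → γ ≤ 1 → 1 ≤ c1 → ∃ κ C : ℝ, 0 < κ ∧ κ ≤ 1 ∧ 1 ≤ C ∧
    ∀ (L : ℝ) (ι : Type) [Fintype ι] (P : ι → ι → ℝ) (V : Finset ι) (g ξ : ι → ℝ) (M : ℝ),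
      1 ≤ L → IsPr P → ap P g = g → (∀ i ∈ V, |ξ i| ≤ 1) → M = ∑ i ∈ V, |TT (g i)| → 0 < M →
      β / 3 * M < ∑ i ∈ V, ξ i * TT (g i) →
      nu g (univ.filter (fun i => γ ≤ |g i|)) ≤ c1 * M →
      nu g (Vᶜ.filter (fun i => γ ≤ |g i|)) ≤ c1 / L * M →
      ∑ i ∈ univ.filter (fun i => |g i| < γ), g i ^ 2 ≤ e0 * M →
      (#(V.filter (fun i => 1 / 2 ≤ |g i|)) : ℝ) ≤ B0 * M →
      ∃ (Z : Finset ι) (m : ℝ), m = ∑ i ∈ Z ∩ V, |TT (g i)| ∧ 0 < m ∧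
        β / 4 * m < ∑ i ∈ Z ∩ V, ξ i * TT (g i) ∧ (∀ i ∈ Z, γ ≤ |g i|) ∧ Link P κ Z g ∧
        nu g Z ≤ C * m ∧ nu g (Z \ V) ≤ C / L * m ∧ DD P g Z ≤ ε * m ∧
        (#((Z ∩ V).filter (fun i => 1 / 2 ≤ |g i|)) : ℝ) ≤ C1 * m

/-- Z5. a bad vector has a bad piece, with cheap coordinates -/
def ST_PIECE2 : Prop :=
  ∀ β : ℝ, 0 < β → β ≤ 1 → ∃ C1 : ℝ, 1 ≤ C1 ∧ ∀ ε : ℝ, 0 < ε → ε ≤ 1 →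
    ∃ γ κ C : ℝ, 0 < γ ∧ γ ≤ 1 ∧ 0 < κ ∧ κ ≤ 1 ∧ 1 ≤ C ∧
    ∀ L : ℝ, 1 ≤ L → ∃ θ0 : ℝ, 0 < θ0 ∧ θ0 ≤ 1 ∧
    ∀ (ι : Type) [Fintype ι] (P : ι → ι → ℝ) (V X : Finset ι) (θ f ξ : ι → ℝ) (B : ι → ι → ℝ),
      IsPr P → ap P f = f → Disjoint V X → Cheap P X θ0 θ B → (∀ i ∈ V, |ξ i| ≤ 1) →
      β * l1 f V + L * l1 f (V ∪ X)ᶜ + ∑ j ∈ X, θ j ^ ex * |f j| < ∑ i ∈ V, ξ i * f i →
      ∃ (g : ι → ℝ) (Z : Finset ι) (m : ℝ), m = ∑ i ∈ Z ∩ V, |TT (g i)| ∧ 0 < m ∧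
        β / 4 * m < ∑ i ∈ Z ∩ V, ξ i * TT (g i) ∧ (∀ i ∈ Z, γ ≤ |g i|) ∧ Link P κ Z g ∧
        nu g Z ≤ C * m ∧ nu g (Z \ V) ≤ C / L * m ∧ DD P g Z ≤ ε * m ∧
        (#((Z ∩ V).filter (fun i => 1 / 2 ≤ |g i|)) : ℝ) ≤ C1 * m

/-- Z6. zonotope signing with means and cheap coordinates -/
def ST_SIGN2 : Prop :=
  ∀ β : ℝ, 0 < β → β ≤ 1 → ∃ η L θ0 : ℝ, 0 < η ∧ η ≤ 1 ∧ 1 ≤ L ∧ 0 < θ0 ∧ θ0 ≤ 1 ∧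
    ∀ (ι : Type) [Fintype ι] (P : ι → ι → ℝ) (V X : Finset ι) (θ z : ι → ℝ) (B : ι → ι → ℝ),
      IsPr P → Disjoint V X → (∀ i ∈ V, P i i ≤ η) → Cheap P X θ0 θ B → (∀ i, |z i| ≤ 1) →
      ∃ ξ : ι → ℝ, (∀ i, ξ i = 1 ∨ ξ i = -1) ∧
        ∀ f : ι → ℝ, ap P f = f → ∑ i ∈ V, (ξ i - z i) * f i ≤
          β * l1 f V + L * l1 f (V ∪ X)ᶜ + ∑ j ∈ X, θ j ^ ex * |f j|

/-- Z7. signing for functionals -/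
def ST_SIGNF2 : Prop :=
  ∀ β : ℝ, 0 < β → β ≤ 1 → ∃ η C : ℝ, 0 < η ∧ η ≤ 1 ∧ 1 ≤ C ∧
    ∀ (V R : Type) [Fintype V] [Fintype R] (a : V → Finset R) (lam : R → ℝ) (q z : V → ℝ)
      (T E : Finset V), Disjoint T E → (∀ S, 0 < lam S) → (∀ v, 0 ≤ q v) → (∀ v, q v ≤ 1) →
      (∀ v, |z v| ≤ 1) →
      (∀ u ∈ E, ∀ y : R → ℝ, (fn a u y) ^ 2 ≤
        η * (∑ S, (lam S * y S) ^ 2 + ∑ v ∈ T, (q v * fn a v y) ^ 2)) →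
      ∃ ξ : V → ℝ, (∀ v, ξ v = 1 ∨ ξ v = -1) ∧ ∀ y : R → ℝ, ∑ u ∈ E, (ξ u - z u) * fn a u y ≤
        β * ∑ u ∈ E, |fn a u y| +
          C * (∑ S, tol (lam S) (cnt a (T ∪ E) S) * |y S| + ∑ v ∈ T, q v * |fn a v y|)

/-- R1. rounding of the dual vector: domination with small rows -/
def ST_ROUND : Prop :=
  ∃ C : ℝ, 1 ≤ C ∧ ∀ (V R : Type) [Fintype V] [Fintype R] (a : V → Finset R) (lam : R → ℝ)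
    (s : V → ℝ) (T E : Finset V) (α β : ℝ), (∀ S, 0 < lam S) → (∀ v, 0 ≤ s v) → (∀ v, s v ≤ 1) →
    Disjoint T E → 0 ≤ α → α ≤ 1 → 0 ≤ β → β ≤ 1 →
    (∀ y : R → ℝ, α * ∑ u ∈ E, ph (fn a u y) ≤
      2 * ∑ S, ps (lam S * y S) + β * ∑ v ∈ T, ph (s v * fn a v y)) →
    ∀ y : R → ℝ, α * ∑ u ∈ E, ph (fn a u y) ≤
      C * ∑ S, min 1 (((cnt a (T ∪ E) S : ℕ) : ℝ) / lam S ^ 2) ^ ex * kq (lam S * |y S|)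
        + 4 * β * ∑ v ∈ T, ph (s v * fn a v y)

/-- R2. integration over all scales -/
def ST_SCALE2 : Prop :=
  ∀ (I K L : Type) [Fintype I] [Fintype K] [Fintype L] (x : I → ℝ) (z b : K → ℝ) (w : L → ℝ)
    (α γ : ℝ), (∀ j, 0 ≤ b j) → (∀ j, 0 ≤ z j) →
    (∀ h : ℝ, 0 < h → α * ∑ i, ph (x i / h) ≤ ∑ j, b j * kq (z j / h) + γ * ∑ l, ph (w l / h)) →
    α * ∑ i, |x i| ≤ 20 * ∑ j, b j * z j + γ * ∑ l, |w l|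

/-- R3. lower bound of the partition function -/
def ST_LOW2 : Prop :=
  ∃ C : ℝ, 0 < C ∧ ∀ (V R : Type) [Fintype V] [Fintype R] (a : V → Finset R) (b c l0 : ℝ) (t : ℕ)
    (e : R → ℝ) (s : V → ℝ) (T E : Finset V), 0 ≤ b → 0 ≤ c → 0 < l0 → (∀ v, (a v).card ≤ t) →
    (∀ S, 0 ≤ e S) → (∀ v, 0 ≤ s v) → (∀ v, s v ≤ 1) →
    - (∑ S, e S) - C * b * t / l0 ^ 2 * T.card ≤
      Real.log (ZZ a b c (fun S => l0 / (1 + e S)) s T E)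

/-- R4. the rank function -/
def ST_RANK2 : Prop :=
  ∀ b : ℝ, 0 < b → b ≤ 1 → ∃ C δ : ℝ, 0 < C ∧ 0 < δ ∧ ∀ (V R : Type) [Fintype V] [Fintype R]
    (a : V → Finset R) (t : ℕ), 1 ≤ t → (∀ v, (a v).card ≤ t) →
    ∃ k : V → ℕ, ∀ i, ∀ u ∈ EE k i,
      Happy a b c0 (1 / 100) (lam2 a (C * Real.sqrt t) (δ / t) k i) (sw k i)
        (Pool.Agent.Helper3.NFR.TT k i) (EE k i) u

/-- R5. sum of the tolerances of one row -/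
def ST_ERR2 : Prop :=
  ∀ C δ : ℝ, 0 < C → 0 < δ → ∃ C' : ℝ, ∀ (V R : Type) [Fintype V] [Fintype R] (a : V → Finset R)
    (t : ℕ) (k : V → ℕ) (S : R) (N : ℕ), 1 ≤ t →
    ∑ i ∈ range N, tol (lam2 a (C * Real.sqrt t) (δ / t) k i S)
      (cnt a (Pool.Agent.Helper3.NFR.TT k i ∪ EE k i) S) ≤ C' * Real.sqrt t

/-- R6. one level -/
def ST_STEP2 : Prop :=
  ∃ b C : ℝ, 0 < b ∧ b ≤ 1 ∧ 0 < C ∧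
    ∀ (V R : Type) [Fintype V] [Fintype R] (a : V → Finset R) (lam : R → ℝ) (s : V → ℝ)
      (T E : Finset V), Disjoint T E → (∀ S, 0 < lam S) → (∀ v, 0 ≤ s v) → (∀ v, s v ≤ 1) →
      (∀ u ∈ E, Happy a b c0 (1 / 100) lam s T E u) →
      ∀ z : V → ℝ, (∀ v, |z v| ≤ 1) → ∃ x ζ : V → ℝ, (∀ v, x v = 1 ∨ x v = -1) ∧
        (∀ v, |ζ v| ≤ s v / 4) ∧
        ∀ S, |∑ u ∈ E.filter (fun u => S ∈ a u), (x u - z u) +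
          ∑ v ∈ T.filter (fun v => S ∈ a v), ζ v| ≤ C * tol (lam S) (cnt a (T ∪ E) S)

/-- R7. the Beck-Fiala conjecture -/
def ST_BF : Prop :=
  ∃ C : ℝ, 0 < C ∧
    ∀ (n m t : ℕ) (S : Fin m → Finset (Fin n)),
      (∀ i : Fin n, (Finset.univ.filter (fun j : Fin m => i ∈ S j)).card ≤ t) →
      ∃ χ : Fin n → ℤ, (∀ i, χ i = 1 ∨ χ i = -1) ∧
        ∀ j : Fin m, ((|∑ i ∈ S j, χ i| : ℤ) : ℝ) ≤ C * Real.sqrt (t : ℝ)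

end

end Pool.Agent.Helper53.BFZ
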